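import Pool.Agent.T9h78.Sing.Spec

/-!
# Project Sing, piece (R3) StChain

Author: helper65 (paper proof: helper78).
-/

namespace Pool.Agent.T9h65.Sing

open Matrix BigOperators
open Pool.Agent.T9h78.Sing

universe u

variable {F : Type u} [Field F] {k : ℕ} (S : Matrix (Fin k) (Fin k) F)

/-- constants -/
abbrev cst {F : Type u} [Field F] {k : ℕ} (K : Type u) [CommRing K] [Algebra F K] (y : Fin k → F) :
    Fin k → K := fun i => algebraMap F K (y i)

lemma pen_eq {K : Type u} [CommRing K] [Algebra F K] (t : K) :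
    pen t S = S.map (algebraMap F K) + t • (Sᵀ).map (algebraMap F K) := by
  ext a b
  simp [pen]

lemma pen_mulVec {K : Type u} [CommRing K] [Algebra F K] (t : K) (y : Fin k → F) :
    pen t S *ᵥ cst K y = cst K (S *ᵥ y) + t • cst K (Sᵀ *ᵥ y) := by
  rw [pen_eq, add_mulVec, smul_mulVec]
  congr 1
  · funext i
    exact (RingHom.map_mulVec (algebraMap F K) S y i).symm
  · congr 1
    funext i
    exact (RingHom.map_mulVec (algebraMap F K) Sᵀ y i).symm

lemma pen_vecMul {K : Type u} [CommRing K] [Algebra F K] (t : K) (y : Fin k → F) :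
    cst K y ᵥ* pen t S = cst K (Sᵀ *ᵥ y) + t • cst K (S *ᵥ y) := by
  rw [pen_eq, vecMul_add, vecMul_smul]
  congr 1
  · funext i
    rw [mulVec_transpose]
    exact (RingHom.map_vecMul (algebraMap F K) S y i).symm
  · congr 1
    funext i
    have := (RingHom.map_vecMul (algebraMap F K) Sᵀ y i).symm
    rw [vecMul_transpose] at this
    exact this

lemma cst_dot (K : Type u) [CommRing K] [Algebra F K] (y z : Fin k → F) :
    cst K y ⬝ᵥ cst K z = algebraMap F K (y ⬝ᵥ z) :=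
  (RingHom.map_dotProduct (algebraMap F K) y z).symm

lemma cst_add (K : Type u) [CommRing K] [Algebra F K] (y z : Fin k → F) :
    cst K (y + z) = cst K y + cst K z := by
  funext i; simp [cst]

lemma cst_neg (K : Type u) [CommRing K] [Algebra F K] (y : Fin k → F) :
    cst K (-y) = - cst K y := by
  funext i; simp [cst]

/-- the operator on subspaces -/
def Ph (U : Submodule F (Fin k → F)) : Submodule F (Fin k → F) :=
  (U.map S.mulVecLin).comap (Sᵀ).mulVecLin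

lemma mem_Ph (U : Submodule F (Fin k → F)) (y : Fin k → F) :
    y ∈ Ph S U ↔ ∃ z ∈ U, S *ᵥ z = Sᵀ *ᵥ y := by
  unfold Ph
  rw [Submodule.mem_comap, Submodule.mem_map]
  simp only [mulVecLin_apply]

lemma mem_Ph' (U : Submodule F (Fin k → F)) (y : Fin k → F) :
    y ∈ Ph S U ↔ ∃ z ∈ U, Sᵀ *ᵥ y = - (S *ᵥ z) := by
  rw [mem_Ph]
  constructor
  · rintro ⟨z, hz, h⟩
    exact ⟨-z, U.neg_mem hz, by rw [mulVec_neg, neg_neg, h]⟩
  · rintro ⟨z, hz, h⟩
    exact ⟨-z, U.neg_mem hz, by rw [mulVec_neg, h]⟩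

lemma Ph_mono {U V : Submodule F (Fin k → F)} (h : U ≤ V) : Ph S U ≤ Ph S V :=
  Submodule.comap_mono (Submodule.map_mono h)

def EE (n : ℕ) : Submodule F (Fin k → F) := (Ph S)^[n] ⊥

def DD (n : ℕ) : Submodule F (Fin k → F) := (Ph S)^[n] ⊤

lemma EE_succ (n : ℕ) : EE S (n + 1) = Ph S (EE S n) := Function.iterate_succ_apply' _ _ _

lemma DD_succ (n : ℕ) : DD S (n + 1) = Ph S (DD S n) := Function.iterate_succ_apply' _ _ _

lemma EE_le (n : ℕ) : EE S n ≤ EE S (n + 1) := by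
  induction n with
  | zero => exact bot_le
  | succ n ih =>
    have := Ph_mono S ih
    rwa [← EE_succ, ← EE_succ] at this

lemma DD_le (n : ℕ) : DD S (n + 1) ≤ DD S n := by
  induction n with
  | zero => exact le_top
  | succ n ih =>
    have := Ph_mono S ih
    rwa [← DD_succ, ← DD_succ] at this

lemma slide (y z : Fin k → F) : y ⬝ᵥ (S *ᵥ z) = (Sᵀ *ᵥ y) ⬝ᵥ z := by
  rw [dotProduct_mulVec, mulVec_transpose]

lemma slide' (y z : Fin k → F) : y ⬝ᵥ (Sᵀ *ᵥ z) = (S *ᵥ y) ⬝ᵥ z := by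
  rw [dotProduct_mulVec, vecMul_transpose]

/-- (a) -/
lemma isot (n : ℕ) : ∀ y ∈ EE S n, ∀ z ∈ EE S n, y ⬝ᵥ (S *ᵥ z) = 0 := by
  induction n with
  | zero =>
    intro y hy z _
    have : y = 0 := by simpa [EE] using hy
    rw [this, zero_dotProduct]
  | succ n ih =>
    intro y hy z hz
    rw [EE_succ, mem_Ph'] at hy hz
    obtain ⟨y', hy', h1⟩ := hy
    obtain ⟨z', hz', h2⟩ := hz
    rw [slide, h1, neg_dotProduct, ← slide', h2, dotProduct_neg, neg_neg]
    exact ih y' hy' z' hz'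

/-- duality -/
lemma dual (n : ℕ) : ∀ y, (∀ d ∈ DD S n, y ⬝ᵥ (S *ᵥ d) = 0) → y ∈ EE S (n + 1) := by
  classical
  induction n with
  | zero =>
    intro y h
    have h1 : Sᵀ *ᵥ y = 0 := by
      refine dotProduct_eq_zero _ fun d => ?_
      rw [← slide]
      exact h d (by simp [DD])
    rw [EE_succ, mem_Ph]
    exact ⟨0, Submodule.zero_mem _, by rw [mulVec_zero, h1]⟩
  | succ n ih =>
    intro y h
    obtain ⟨U, hU⟩ : ∃ U : Submodule F (Fin k → F), U = (DD S n).map S.mulVecLin := ⟨_, rfl⟩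
    obtain ⟨A, hA⟩ : ∃ A : (Fin k → F) →ₗ[F] ((Fin k → F) ⧸ U), A = U.mkQ ∘ₗ (Sᵀ).mulVecLin := ⟨_, rfl⟩
    obtain ⟨l, hl⟩ : ∃ l : Module.Dual F (Fin k → F), l = dotProductEquiv F (Fin k) (Sᵀ *ᵥ y) := ⟨_, rfl⟩
    have h1 : l ∈ (LinearMap.ker A).dualAnnihilator := by
      rw [Submodule.mem_dualAnnihilator]
      intro d hd
      rw [LinearMap.mem_ker, hA, LinearMap.comp_apply, ← LinearMap.mem_ker, Submodule.ker_mkQ,
        mulVecLin_apply, hU] at hd
      have hd2 : d ∈ DD S (n + 1) := by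
        rw [DD_succ]
        exact hd
      rw [hl]
      show (Sᵀ *ᵥ y) ⬝ᵥ d = 0
      rw [← slide]
      exact h d hd2
    rw [← LinearMap.range_dualMap_eq_dualAnnihilator_ker, LinearMap.mem_range] at h1
    obtain ⟨g, hg⟩ := h1
    obtain ⟨z, hz⟩ : ∃ z : Fin k → F, dotProductEquiv F (Fin k) z = g ∘ₗ U.mkQ :=
      ⟨(dotProductEquiv F (Fin k)).symm (g ∘ₗ U.mkQ), LinearEquiv.apply_symm_apply _ _⟩
    have hz' : ∀ v, z ⬝ᵥ v = g (U.mkQ v) := fun v => by
      have := congrArg (fun f => f v) hz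
      simpa using this
    have hzE : z ∈ EE S (n + 1) := by
      refine ih z fun d hd => ?_
      rw [hz']
      have : U.mkQ (S *ᵥ d) = 0 := by
        rw [← LinearMap.mem_ker, Submodule.ker_mkQ, hU]
        exact ⟨d, hd, rfl⟩
      rw [this, map_zero]
    rw [EE_succ, mem_Ph]
    refine ⟨z, hzE, ?_⟩
    refine dotProduct_eq _ _ fun d => ?_
    rw [← slide', hz']
    have := congrArg (fun f => f d) hg
    rw [hl, hA] at this
    exact this

/-- a vector which kills `E` lies in `S D` -/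
lemma mem_SD (n : ℕ) (l : Fin k → F) (h : ∀ y ∈ EE S (n + 1), l ⬝ᵥ y = 0) :
    ∃ d ∈ DD S n, S *ᵥ d = l := by
  classical
  by_contra hcon
  have h1 : l ∉ (DD S n).map S.mulVecLin := by
    rintro ⟨d, hd, h2⟩
    exact hcon ⟨d, hd, h2⟩
  obtain ⟨f, hf1, hf2⟩ := Submodule.exists_le_ker_of_notMem h1
  obtain ⟨y, hy⟩ : ∃ y : Fin k → F, dotProductEquiv F (Fin k) y = f :=
    ⟨(dotProductEquiv F (Fin k)).symm f, LinearEquiv.apply_symm_apply _ _⟩
  have hy' : ∀ v, y ⬝ᵥ v = f v := fun v => by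
    have := congrArg (fun f => f v) hy
    simpa using this
  have h2 : y ∈ EE S (n + 1) := by
    refine dual S n y fun d hd => ?_
    rw [hy']
    exact LinearMap.mem_ker.1 (hf2 ⟨d, hd, rfl⟩)
  apply hf1
  rw [← hy', dotProduct_comm]
  exact h y h2

/-- the stable subspace -/
lemma stab : ∃ n, Ph S (DD S n) = DD S n := by
  obtain ⟨n, hn⟩ := IsArtinian.monotone_stabilizes (R := F) (M := Fin k → F)
    ⟨fun n => OrderDual.toDual (DD S n), monotone_nat_of_le_succ fun n => DD_le S n⟩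
  refine ⟨n, ?_⟩
  rw [← DD_succ]
  exact (hn (n + 1) (Nat.le_succ n)).symm

/-- (b) -/
lemma solve (l : Fin k → F) (h : ∀ n, ∀ y ∈ EE S n, l ⬝ᵥ y = 0) :
    ∃ μ : Fin k → PowerSeries F, pen (PowerSeries.X : PowerSeries F) S *ᵥ μ = cst (PowerSeries F) l := by
  classical
  obtain ⟨n, hn⟩ := stab S
  obtain ⟨d₀, hd₀, hl⟩ := mem_SD S n l (h (n + 1))
  have hstep : ∀ a : DD S n, ∃ b : DD S n, S *ᵥ b.1 = - (Sᵀ *ᵥ a.1) := by
    intro a
    have ha : a.1 ∈ Ph S (DD S n) := by rw [hn]; exact a.2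
    rw [mem_Ph'] at ha
    obtain ⟨z, hz, h1⟩ := ha
    exact ⟨⟨z, hz⟩, by rw [h1, neg_neg]⟩
  choose st hst using hstep
  obtain ⟨m, hm0, hm1⟩ : ∃ m : ℕ → DD S n, m 0 = ⟨d₀, hd₀⟩ ∧ ∀ i, m (i + 1) = st (m i) :=
    ⟨fun i => Nat.rec ⟨d₀, hd₀⟩ (fun _ a => st a) i, rfl, fun _ => rfl⟩
  refine ⟨fun a => PowerSeries.mk fun i => (m i).1 a, ?_⟩
  funext a
  ext i
  have e1 : (pen (PowerSeries.X : PowerSeries F) S *ᵥ fun a => PowerSeries.mk fun i => (m i).1 a) a =
      ∑ b, (PowerSeries.C (S a b) * (PowerSeries.mk fun i => (m i).1 b)) +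
        PowerSeries.X * ∑ b, (PowerSeries.C (S b a) * (PowerSeries.mk fun i => (m i).1 b)) := by
    rw [Finset.mul_sum, ← Finset.sum_add_distrib]
    simp only [mulVec, dotProduct, pen]
    refine Finset.sum_congr rfl fun b _ => ?_
    simp only [PowerSeries.algebraMap_apply, Algebra.algebraMap_self, RingHom.id_apply]
    ring
  rw [e1]
  cases i with
  | zero =>
    simp only [map_add, PowerSeries.coeff_zero_X_mul, add_zero, map_sum, PowerSeries.coeff_C_mul,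
      PowerSeries.coeff_mk, hm0]
    have := congrFun hl a
    simp only [mulVec, dotProduct] at this
    rw [this]
    simp [cst]
  | succ i =>
    rw [map_add, PowerSeries.coeff_succ_X_mul]
    simp only [map_sum, PowerSeries.coeff_C_mul, PowerSeries.coeff_mk]
    have h1 := congrFun (hst (m i)) a
    rw [← hm1] at h1
    simp only [mulVec, dotProduct, Pi.neg_apply, transpose_apply] at h1
    rw [h1]
    simp [cst]

/-- special vectors kill all `E n` -/
lemma spe_kills (l : Fin k → F) (μ : Fin k → PowerSeries F)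
    (h : pen (PowerSeries.X : PowerSeries F) S *ᵥ μ = cst (PowerSeries F) l) :
    ∀ n, ∀ y ∈ EE S n, l ⬝ᵥ y = 0 := by
  classical
  -- the coefficients
  obtain ⟨m, hm⟩ : ∃ m : ℕ → Fin k → F, m = fun i a => PowerSeries.coeff i (μ a) := ⟨_, rfl⟩
  have e1 : ∀ a, (pen (PowerSeries.X : PowerSeries F) S *ᵥ μ) a =
      ∑ b, (PowerSeries.C (S a b) * μ b) + PowerSeries.X * ∑ b, (PowerSeries.C (S b a) * μ b) := by
    intro a
    rw [Finset.mul_sum, ← Finset.sum_add_distrib]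
    simp only [mulVec, dotProduct, pen]
    refine Finset.sum_congr rfl fun b _ => ?_
    simp only [PowerSeries.algebraMap_apply, Algebra.algebraMap_self, RingHom.id_apply]
    ring
  have h0 : S *ᵥ (m 0) = l := by
    funext a
    have h1 := congrArg (PowerSeries.coeff 0) ((e1 a).symm.trans (congrFun h a))
    simp only [map_add, PowerSeries.coeff_zero_X_mul, add_zero, map_sum, PowerSeries.coeff_C_mul] at h1
    rw [hm]
    simp only [mulVec, dotProduct]
    rw [h1]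
    simp [cst]
  have h1 : ∀ i, S *ᵥ (m (i + 1)) = - (Sᵀ *ᵥ (m i)) := by
    intro i
    funext a
    have h1 := congrArg (PowerSeries.coeff (i + 1)) ((e1 a).symm.trans (congrFun h a))
    rw [map_add, PowerSeries.coeff_succ_X_mul] at h1
    simp only [map_sum, PowerSeries.coeff_C_mul] at h1
    rw [hm]
    simp only [mulVec, dotProduct, Pi.neg_apply, transpose_apply]
    rw [eq_neg_iff_add_eq_zero, h1]
    simp [cst]
  have h2 : ∀ n, ∀ y ∈ EE S n, ∀ i, (S *ᵥ (m i)) ⬝ᵥ y = 0 := by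
    intro n
    induction n with
    | zero =>
      intro y hy i
      have : y = 0 := by simpa [EE] using hy
      rw [this, dotProduct_zero]
    | succ n ih =>
      intro y hy i
      rw [EE_succ, mem_Ph'] at hy
      obtain ⟨z, hz, h3⟩ := hy
      rw [← slide', h3, dotProduct_neg, slide, ← neg_dotProduct, ← h1]
      exact ih z hz (i + 1)
  intro n y hy
  rw [← h0]
  exact h2 n y hy 0

lemma tt_ne : tt F ≠ 0 := by
  unfold tt
  intro h
  have h1 : (HahnSeries.ofPowerSeries ℤ F) (PowerSeries.X : PowerSeries F) =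
      (HahnSeries.ofPowerSeries ℤ F) 0 := by rw [map_zero]; exact h
  exact PowerSeries.X_ne_zero (HahnSeries.ofPowerSeries_injective h1)

/-- the chain vectors, one step -/
lemma chain_step (n : ℕ) {y z : Fin k → F}
    (hyz : Sᵀ *ᵥ y = - (S *ᵥ z))
    (H : ∃ ν w : Fin k → LaurentSeries F, pen (tt F) S *ᵥ ν = cst (LaurentSeries F) (S *ᵥ z) ∧
      w ᵥ* pen (tt F) S = cst (LaurentSeries F) (S *ᵥ z) ∧
      ∀ l : Fin k → F, (∀ z ∈ EE S n, l ⬝ᵥ z = 0) →
        cst (LaurentSeries F) l ⬝ᵥ ν = 0 ∧ w ⬝ᵥ cst (LaurentSeries F) l = 0) :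
    ∃ ν w : Fin k → LaurentSeries F, pen (tt F) S *ᵥ ν = cst (LaurentSeries F) (S *ᵥ y) ∧
      w ᵥ* pen (tt F) S = cst (LaurentSeries F) (S *ᵥ y) ∧
      ∀ l : Fin k → F, (∀ z ∈ EE S n, l ⬝ᵥ z = 0) →
        cst (LaurentSeries F) l ⬝ᵥ ν = algebraMap F _ (l ⬝ᵥ y) ∧
        tt F * (w ⬝ᵥ cst (LaurentSeries F) l) = algebraMap F _ (l ⬝ᵥ y) := by
  obtain ⟨ν, w, h1, h2, h3⟩ := H
  have ht := tt_ne (F := F)
  refine ⟨cst _ y + tt F • ν, (tt F)⁻¹ • (cst _ y + w), ?_, ?_, ?_⟩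
  · rw [mulVec_add, mulVec_smul, h1, pen_mulVec, hyz, cst_neg, smul_neg]
    abel
  · rw [smul_vecMul, add_vecMul, h2, pen_vecMul, hyz, cst_neg]
    have e : -cst (LaurentSeries F) (S *ᵥ z) + tt F • cst (LaurentSeries F) (S *ᵥ y) +
        cst (LaurentSeries F) (S *ᵥ z) = tt F • cst (LaurentSeries F) (S *ᵥ y) := by abel
    rw [e, smul_smul, inv_mul_cancel₀ ht, one_smul]
  · intro l hl
    obtain ⟨h4, h5⟩ := h3 l hl
    constructor
    · rw [dotProduct_add, dotProduct_smul, h4, smul_zero, add_zero, cst_dot]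
    · rw [smul_dotProduct, add_dotProduct, h5, add_zero, cst_dot, dotProduct_comm y l, smul_eq_mul,
        mul_inv_cancel_left₀ ht]

lemma chain0 (n : ℕ) : ∀ y ∈ EE S n, ∃ ν w : Fin k → LaurentSeries F,
    pen (tt F) S *ᵥ ν = cst (LaurentSeries F) (S *ᵥ y) ∧
      w ᵥ* pen (tt F) S = cst (LaurentSeries F) (S *ᵥ y) ∧
      ∀ l : Fin k → F, (∀ z ∈ EE S n, l ⬝ᵥ z = 0) →
        cst (LaurentSeries F) l ⬝ᵥ ν = 0 ∧ w ⬝ᵥ cst (LaurentSeries F) l = 0 := by
  induction n with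
  | zero =>
    intro y hy
    have hy0 : y = 0 := by simpa [EE] using hy
    refine ⟨0, 0, ?_, ?_, fun l _ => ⟨dotProduct_zero _, zero_dotProduct _⟩⟩
    · rw [hy0, mulVec_zero, mulVec_zero]
      funext i; simp [cst]
    · rw [hy0, zero_vecMul, mulVec_zero]
      funext i; simp [cst]
  | succ n ih =>
    intro y hy
    have hy' := hy
    rw [EE_succ, mem_Ph'] at hy'
    obtain ⟨z, hz, hyz⟩ := hy'
    obtain ⟨ν, w, h1, h2, h3⟩ := chain_step S n hyz (ih z hz)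
    refine ⟨ν, w, h1, h2, fun l hl => ?_⟩
    obtain ⟨h4, h5⟩ := h3 l (fun z hz => hl z (EE_le S n hz))
    rw [hl y hy, map_zero] at h4 h5
    exact ⟨h4, (mul_eq_zero.1 h5).resolve_left tt_ne⟩

lemma chain1 (n : ℕ) {y : Fin k → F} (hy : y ∈ EE S (n + 1)) : ∃ ν w : Fin k → LaurentSeries F,
    pen (tt F) S *ᵥ ν = cst (LaurentSeries F) (S *ᵥ y) ∧
      w ᵥ* pen (tt F) S = cst (LaurentSeries F) (S *ᵥ y) ∧
      ∀ l : Fin k → F, (∀ z ∈ EE S n, l ⬝ᵥ z = 0) →
        cst (LaurentSeries F) l ⬝ᵥ ν = algebraMap F _ (l ⬝ᵥ y) ∧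
        tt F * (w ⬝ᵥ cst (LaurentSeries F) l) = algebraMap F _ (l ⬝ᵥ y) := by
  rw [EE_succ, mem_Ph'] at hy
  obtain ⟨z, hz, hyz⟩ := hy
  exact chain_step S n hyz (chain0 S n z hz)

/-- the shift along the chain -/
lemma lam_shift (n : ℕ) {y : Fin k → F} (hy : y ∈ EE S (n + 1)) {l : Fin k → F} {s : F}
    (hl : ∀ z ∈ EE S n, l ⬝ᵥ z = 0) (h : Lam S l s) : Lam S (l + S *ᵥ y) (s + l ⬝ᵥ y) := by
  obtain ⟨μ, h1, h2⟩ := h
  obtain ⟨ν, w, h3, h4, h5⟩ := chain1 S n hy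
  have hSy : ∀ z ∈ EE S n, (S *ᵥ y) ⬝ᵥ z = 0 := fun z hz => by
    rw [dotProduct_comm]
    exact isot S (n + 1) z (EE_le S n hz) y hy
  obtain ⟨a1, a2⟩ := h5 l hl
  obtain ⟨b1, _⟩ := h5 (S *ᵥ y) hSy
  have hSyy : (S *ᵥ y) ⬝ᵥ y = 0 := by
    rw [dotProduct_comm]; exact isot S (n + 1) y hy y hy
  rw [hSyy, map_zero] at b1
  have c1 : cst (LaurentSeries F) (S *ᵥ y) ⬝ᵥ μ = w ⬝ᵥ cst (LaurentSeries F) l := by
    rw [← h4, ← dotProduct_mulVec, h1]
  refine ⟨μ + ν, ?_, ?_⟩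
  · rw [mulVec_add, h1, h3]
    exact (cst_add _ _ _).symm
  · have e1 : (fun i => algebraMap F (LaurentSeries F) ((l + S *ᵥ y) i)) =
        cst (LaurentSeries F) l + cst (LaurentSeries F) (S *ᵥ y) := cst_add _ _ _
    rw [e1, dotProduct_add, add_dotProduct, add_dotProduct, a1, b1, c1, add_zero, map_add]
    have h2' : tt F * (cst (LaurentSeries F) l ⬝ᵥ μ) = (1 + tt F) * algebraMap F _ s := h2
    rw [mul_add, mul_add, h2', a2]
    ring

lemma j_alg (a : F) : HahnSeries.ofPowerSeries ℤ F (algebraMap F (PowerSeries F) a) =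
    algebraMap F (LaurentSeries F) a := rfl

/-- (c) -/
lemma lam_spe (hsym : StSym.{u}) {l : Fin k → F} {s : F} (h : Lam S l s)
    (hk : ∀ n, ∀ y ∈ EE S n, l ⬝ᵥ y = 0) : Spe S l := by
  obtain ⟨μ, h1, h2⟩ := h
  obtain ⟨m, hm⟩ := solve S l hk
  obtain ⟨ν, hν⟩ := (hsym F k S l).1 ⟨μ, h1⟩
  obtain ⟨j, hj⟩ : ∃ j : PowerSeries F →+* LaurentSeries F, j = HahnSeries.ofPowerSeries ℤ F := ⟨_, rfl⟩
  have hjX : j PowerSeries.X = tt F := by rw [hj]; rfl
  have hja : ∀ a, j (algebraMap F (PowerSeries F) a) = algebraMap F (LaurentSeries F) a := by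
    intro a; rw [hj]; exact j_alg a
  have hjl : (j ∘ cst (PowerSeries F) l) = cst (LaurentSeries F) l := by
    funext i; exact hja _
  -- the power series solution, read in Laurent series
  have hm' : pen (tt F) S *ᵥ (j ∘ m) = cst (LaurentSeries F) l := by
    funext a
    have e1 := congrArg j (congrFun hm a)
    rw [RingHom.map_mulVec] at e1
    have e2 : (pen (PowerSeries.X : PowerSeries F) S).map j = pen (tt F) S := by
      ext a b
      simp only [map_apply, pen, map_add, map_mul, hjX, hja]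
    rw [e2] at e1
    rw [e1]
    exact hja _
  have hdot : cst (LaurentSeries F) l ⬝ᵥ μ = cst (LaurentSeries F) l ⬝ᵥ (j ∘ m) := by
    have e1 : cst (LaurentSeries F) l = ν ᵥ* pen (tt F) S := hν.symm
    rw [e1, ← dotProduct_mulVec, ← dotProduct_mulVec]
    rw [hm']
    congr 1
  have h2' : tt F * (cst (LaurentSeries F) l ⬝ᵥ μ) = (1 + tt F) * algebraMap F _ s := h2
  have h3 : j (PowerSeries.X * (cst (PowerSeries F) l ⬝ᵥ m)) =
      j ((1 + PowerSeries.X) * algebraMap F (PowerSeries F) s) := by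
    rw [map_mul, map_mul, map_add, map_one, hjX, hja, RingHom.map_dotProduct, hjl, ← hdot, h2']
  have h4 : PowerSeries.X * (cst (PowerSeries F) l ⬝ᵥ m) =
      (1 + PowerSeries.X) * algebraMap F (PowerSeries F) s := by
    rw [hj] at h3
    exact HahnSeries.ofPowerSeries_injective h3
  have h5 : s = 0 := by
    have := congrArg (PowerSeries.coeff 0) h4
    rw [PowerSeries.coeff_zero_X_mul] at this
    simpa using this.symm
  rw [h5, map_zero, mul_zero] at h4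
  refine ⟨m, hm, ?_⟩
  exact (mul_eq_zero.1 h4).resolve_left PowerSeries.X_ne_zero

section fin
variable [Fintype F]

lemma fw_sum : ∑ s : F, fw s = 0 := by
  classical
  unfold fw
  rw [Finset.sum_ite, Finset.sum_const, Finset.sum_const]
  have h1 : (Finset.univ.filter fun s : F => s = 0) = {0} := by
    ext s; simp
  have h2 : (Finset.univ.filter fun s : F => ¬ s = 0).card = Fintype.card F - 1 := by
    have := Finset.card_filter_add_card_filter_not (s := (Finset.univ : Finset F)) (fun s => s = 0)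
    rw [h1, Finset.card_singleton, Finset.card_univ] at this
    omega
  rw [h1, h2, Finset.card_singleton]
  have h3 : 1 ≤ Fintype.card F := Fintype.card_pos
  simp only [nsmul_eq_mul]
  push_cast [Nat.cast_sub h3]
  ring

/-- the average over a subspace on which `l` is not zero -/
lemma avg_zero (E : Submodule F (Fin k → F)) [Fintype E] (l : Fin k → F) (s : F)
    (h : ∃ y ∈ E, l ⬝ᵥ y ≠ 0) : ∑ y : E, fw (s + l ⬝ᵥ y.1) = 0 := by
  classical
  obtain ⟨y₁, hy₁, hne⟩ := h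
  have h1 : ∀ c : F, ∑ y : E, fw (s + l ⬝ᵥ y.1) = ∑ y : E, fw (s + l ⬝ᵥ y.1 + c * (l ⬝ᵥ y₁)) := by
    intro c
    rw [← Equiv.sum_comp (Equiv.addRight (⟨c • y₁, E.smul_mem c hy₁⟩ : E))]
    refine Finset.sum_congr rfl fun y _ => ?_
    congr 1
    simp only [Equiv.coe_addRight, Submodule.coe_add, dotProduct_add, dotProduct_smul, smul_eq_mul]
    ring
  have h2 : (Fintype.card F : ℂ) * ∑ y : E, fw (s + l ⬝ᵥ y.1) = 0 := by
    have h3 : ∑ c : F, ∑ y : E, fw (s + l ⬝ᵥ y.1) =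
        ∑ c : F, ∑ y : E, fw (s + l ⬝ᵥ y.1 + c * (l ⬝ᵥ y₁)) :=
      Finset.sum_congr rfl fun c _ => h1 c
    rw [Finset.sum_const, Finset.card_univ, nsmul_eq_mul] at h3
    rw [h3, Finset.sum_comm]
    refine Finset.sum_eq_zero fun y _ => ?_
    have h4 : ∑ c : F, fw (s + l ⬝ᵥ y.1 + c * (l ⬝ᵥ y₁)) = ∑ c : F, fw c := by
      refine Fintype.sum_bijective (fun c => s + l ⬝ᵥ y.1 + c * (l ⬝ᵥ y₁)) ?_ _ _ (fun _ => rfl)
      refine (Finite.injective_iff_bijective).1 fun a b hab => ?_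
      have := add_left_cancel hab
      exact mul_right_cancel₀ hne this
    rw [h4, fw_sum]
  have h5 : (Fintype.card F : ℂ) ≠ 0 := by
    exact_mod_cast Fintype.card_ne_zero
  exact (mul_eq_zero.1 h2).resolve_left h5

open scoped Classical in
/-- the part of the sum with least index `j + 1` -/
lemma part_zero (j : ℕ) :
    ∑ p ∈ (Finset.univ : Finset ((Fin k → F) × F)).filter (fun p => Lam S p.1 p.2 ∧
      (∀ z ∈ EE S j, p.1 ⬝ᵥ z = 0) ∧ ∃ y ∈ EE S (j + 1), p.1 ⬝ᵥ y ≠ 0), fw p.2 = 0 := by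
  obtain ⟨L, hL⟩ : ∃ L, L = (Finset.univ : Finset ((Fin k → F) × F)).filter (fun p => Lam S p.1 p.2 ∧
      (∀ z ∈ EE S j, p.1 ⬝ᵥ z = 0) ∧ ∃ y ∈ EE S (j + 1), p.1 ⬝ᵥ y ≠ 0) := ⟨_, rfl⟩
  rw [← hL]
  have hmem : ∀ p, p ∈ L ↔ (Lam S p.1 p.2 ∧
      (∀ z ∈ EE S j, p.1 ⬝ᵥ z = 0) ∧ ∃ y ∈ EE S (j + 1), p.1 ⬝ᵥ y ≠ 0) := by
    intro p; rw [hL, Finset.mem_filter]; simp
  have hdot : ∀ (y : EE S (j + 1)) (l : Fin k → F), ∀ z ∈ EE S (j + 1),
      (l + S *ᵥ y.1) ⬝ᵥ z = l ⬝ᵥ z := by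
    intro y l z hz
    rw [add_dotProduct, dotProduct_comm (S *ᵥ y.1) z, isot S (j + 1) z hz y.1 y.2, add_zero]
  have hT : ∀ (y : EE S (j + 1)) (p : (Fin k → F) × F), p ∈ L →
      (p.1 + S *ᵥ y.1, p.2 + p.1 ⬝ᵥ y.1) ∈ L := by
    intro y p hp
    rw [hmem] at hp ⊢
    obtain ⟨h1, h2, y', hy', h3⟩ := hp
    refine ⟨lam_shift S j y.2 h2 h1, ?_, y', hy', ?_⟩
    · intro z hz
      rw [hdot y p.1 z (EE_le S j hz)]
      exact h2 z hz
    · rw [hdot y p.1 y' hy']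
      exact h3
  have hinv : ∀ (y : EE S (j + 1)) (p : (Fin k → F) × F),
      ((p.1 + S *ᵥ y.1) + S *ᵥ (-y).1, (p.2 + p.1 ⬝ᵥ y.1) + (p.1 + S *ᵥ y.1) ⬝ᵥ (-y).1) = p := by
    intro y p
    have h0 := isot S (j + 1) y.1 y.2 y.1 y.2
    ext1
    · simp only [Submodule.coe_neg, mulVec_neg, add_neg_cancel_right]
    · simp only [Submodule.coe_neg, dotProduct_neg, add_dotProduct]
      rw [dotProduct_comm (S *ᵥ y.1) y.1, h0]
      ring
  have hshift : ∀ y : EE S (j + 1), ∑ p ∈ L, fw p.2 = ∑ p ∈ L, fw (p.2 + p.1 ⬝ᵥ y.1) := by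
    intro y
    symm
    refine Finset.sum_nbij' (fun p => (p.1 + S *ᵥ y.1, p.2 + p.1 ⬝ᵥ y.1))
      (fun p => (p.1 + S *ᵥ (-y).1, p.2 + p.1 ⬝ᵥ (-y).1)) (fun p hp => hT y p hp)
      (fun p hp => hT (-y) p hp) (fun p _ => hinv y p) (fun p _ => ?_) (fun p _ => rfl)
    have := hinv (-y) p
    rw [neg_neg] at this
    exact this
  have h1 : (Fintype.card (EE S (j + 1)) : ℂ) * ∑ p ∈ L, fw p.2 = 0 := by
    have h2 : ∑ y : EE S (j + 1), ∑ p ∈ L, fw p.2 =
        ∑ y : EE S (j + 1), ∑ p ∈ L, fw (p.2 + p.1 ⬝ᵥ y.1) :=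
      Finset.sum_congr rfl fun y _ => hshift y
    rw [Finset.sum_const, Finset.card_univ, nsmul_eq_mul] at h2
    rw [h2, Finset.sum_comm]
    refine Finset.sum_eq_zero fun p hp => ?_
    exact avg_zero (EE S (j + 1)) p.1 p.2 ((hmem p).1 hp).2.2
  have h5 : (Fintype.card (EE S (j + 1)) : ℂ) ≠ 0 := by
    exact_mod_cast Fintype.card_ne_zero
  exact (mul_eq_zero.1 h1).resolve_left h5

end fin

/-- piece (R3) -/
theorem stChain (hsym : StSym.{u}) : StChain.{u} := by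
  classical
  intro F _ _ k S
  -- the least index which is not killed
  obtain ⟨nK, hnK⟩ : ∃ nK : (Fin k → F) → ℕ, nK = fun l =>
      if h : ∃ n, ∃ y ∈ EE S n, l ⬝ᵥ y ≠ 0 then Nat.find h else 0 := ⟨_, rfl⟩
  rw [← Finset.sum_fiberwise_of_maps_to (s := Finset.univ)
    (t := Finset.univ.image fun p : (Fin k → F) × F => nK p.1) (g := fun p => nK p.1)
    (fun p hp => Finset.mem_image_of_mem _ hp)]
  refine Finset.sum_eq_zero fun m _ => ?_
  have hmono : ∀ a b, a ≤ b → EE S a ≤ EE S b := monotone_nat_of_le_succ (EE_le S)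
  cases m with
  | zero =>
    refine Finset.sum_eq_zero fun p hp => ?_
    rw [if_neg]
    rintro ⟨h1, h2⟩
    apply h2
    have hp0 : nK p.1 = 0 := (Finset.mem_filter.1 hp).2
    refine lam_spe S hsym h1 ?_
    by_contra hcon
    push Not at hcon
    have hex : ∃ n, ∃ y ∈ EE S n, p.1 ⬝ᵥ y ≠ 0 := hcon
    rw [hnK] at hp0
    simp only [dif_pos hex] at hp0
    rw [Nat.find_eq_zero] at hp0
    obtain ⟨y, hy, h3⟩ := hp0
    have hy0 : y = 0 := by simpa [EE] using hy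
    rw [hy0, dotProduct_zero] at h3
    exact h3 rfl
  | succ j =>
    refine Eq.trans ?_ (part_zero S j)
    rw [Finset.sum_filter, Finset.sum_filter]
    refine Finset.sum_congr rfl fun p _ => ?_
    have key : (nK p.1 = j + 1) ↔ ((∀ z ∈ EE S j, p.1 ⬝ᵥ z = 0) ∧ ∃ y ∈ EE S (j + 1), p.1 ⬝ᵥ y ≠ 0) := by
      rw [hnK]
      by_cases hex : ∃ n, ∃ y ∈ EE S n, p.1 ⬝ᵥ y ≠ 0
      · simp only [dif_pos hex]
        rw [Nat.find_eq_iff]
        constructor
        · rintro ⟨h1, h2⟩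
          refine ⟨fun z hz => ?_, h1⟩
          by_contra h3
          exact h2 j (Nat.lt_succ_self j) ⟨z, hz, h3⟩
        · rintro ⟨h1, h2⟩
          refine ⟨h2, fun n hn => ?_⟩
          rintro ⟨y, hy, h3⟩
          exact h3 (h1 y (hmono n j (Nat.lt_succ_iff.1 hn) hy))
      · simp only [dif_neg hex]
        constructor
        · intro h; exact absurd h (by omega)
        · rintro ⟨_, y, hy, h3⟩; exact absurd ⟨j + 1, y, hy, h3⟩ hex
    by_cases h1 : nK p.1 = j + 1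
    · rw [if_pos h1]
      have h2 := key.1 h1
      by_cases h3 : Lam S p.1 p.2
      · have h4 : ¬ Spe S p.1 := by
          rintro ⟨μ, h5, _⟩
          obtain ⟨y, hy, h6⟩ := h2.2
          exact h6 (spe_kills S p.1 μ h5 (j + 1) y hy)
        rw [if_pos ⟨h3, h4⟩, if_pos ⟨h3, h2⟩]
      · rw [if_neg (fun h => h3 h.1), if_neg (fun h => h3 h.1)]
    · rw [if_neg h1, if_neg (fun h => h1 (key.2 h.2))]

end Pool.Agent.T9h65.Sing
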