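import Pool.Agent.T9h78.Sing.Spec

/-!
# Project Sing, piece (R2) StSym

Author: helper65 (paper proof: helper78; here with the two embeddings `X ↦ t`, `X ↦ 1/t` of `F(X)`).
-/

namespace Pool.Agent.T9h65.Sing

open Matrix BigOperators Polynomial
open Pool.Agent.T9h78.Sing

universe u

variable {F : Type u} [Field F] {k : ℕ}

lemma pen_transpose {K : Type u} [CommRing K] [Algebra F K] (t : K) (S : Matrix (Fin k) (Fin k) F) :
    (pen t S)ᵀ = pen t Sᵀ := by
  ext a b
  simp [pen]

lemma pen_map {K L : Type u} [CommRing K] [Algebra F K] [CommRing L] [Algebra F L] (j : K →+* L)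
    (hj : ∀ a, j (algebraMap F K a) = algebraMap F L a) (t : K) (S : Matrix (Fin k) (Fin k) F) :
    (pen t S).map j = pen (j t) S := by
  ext a b
  simp [pen, hj]

/-- solvability descends along a field extension -/
lemma descend {K L : Type u} [Field K] [Algebra F K] [Field L] [Algebra F L] (j : K →+* L)
    (hj : ∀ a, j (algebraMap F K a) = algebraMap F L a) (t : K) (S : Matrix (Fin k) (Fin k) F)
    (l : Fin k → F) (h : ∃ μ : Fin k → L, pen (j t) S *ᵥ μ = fun i => algebraMap F L (l i)) :
    ∃ μ : Fin k → K, pen t S *ᵥ μ = fun i => algebraMap F K (l i) := by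
  classical
  by_contra hcon
  have h1 : (fun i => algebraMap F K (l i)) ∉ LinearMap.range (pen t S).mulVecLin := by
    rintro ⟨μ, hμ⟩
    exact hcon ⟨μ, hμ⟩
  obtain ⟨f, hf1, hf2⟩ := Submodule.exists_le_ker_of_notMem h1
  obtain ⟨y, hy⟩ : ∃ y : Fin k → K, dotProductEquiv K (Fin k) y = f :=
    ⟨(dotProductEquiv K (Fin k)).symm f, LinearEquiv.apply_symm_apply _ _⟩
  have hy' : ∀ v, y ⬝ᵥ v = f v := fun v => by
    have := congrArg (fun f => f v) hy
    simpa using this
  have h2 : y ᵥ* pen t S = 0 := by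
    refine dotProduct_eq_zero _ fun d => ?_
    rw [← dotProduct_mulVec, hy']
    exact LinearMap.mem_ker.1 (hf2 ⟨d, rfl⟩)
  obtain ⟨μ, hμ⟩ := h
  have h3 : (j ∘ y) ᵥ* pen (j t) S = 0 := by
    rw [← pen_map j hj]
    funext i
    rw [← RingHom.map_vecMul, h2]
    simp
  have h4 : (j ∘ y) ⬝ᵥ (fun i => algebraMap F L (l i)) = 0 := by
    rw [← hμ, dotProduct_mulVec, h3, zero_dotProduct]
  have h5 : j (y ⬝ᵥ fun i => algebraMap F K (l i)) = 0 := by
    rw [RingHom.map_dotProduct]
    have : (j ∘ fun i => algebraMap F K (l i)) = fun i => algebraMap F L (l i) := by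
      funext i; exact hj _
    rw [this]; exact h4
  rw [map_eq_zero] at h5
  apply hf1
  rw [← hy']
  exact h5

/-- solvability goes up along a ring homomorphism -/
lemma ascend {K L : Type u} [Field K] [Algebra F K] [Field L] [Algebra F L] (j : K →+* L)
    (hj : ∀ a, j (algebraMap F K a) = algebraMap F L a) (t : K) (S : Matrix (Fin k) (Fin k) F)
    (l : Fin k → F) (h : ∃ μ : Fin k → K, pen t S *ᵥ μ = fun i => algebraMap F K (l i)) :
    ∃ μ : Fin k → L, pen (j t) S *ᵥ μ = fun i => algebraMap F L (l i) := by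
  obtain ⟨μ, hμ⟩ := h
  refine ⟨j ∘ μ, ?_⟩
  rw [← pen_map j hj]
  funext i
  rw [← RingHom.map_mulVec, hμ]
  exact hj _

lemma tt_ne' : tt F ≠ 0 := by
  unfold tt
  intro h
  have h1 : (HahnSeries.ofPowerSeries ℤ F) (PowerSeries.X : PowerSeries F) =
      (HahnSeries.ofPowerSeries ℤ F) 0 := by rw [map_zero]; exact h
  exact PowerSeries.X_ne_zero (HahnSeries.ofPowerSeries_injective h1)

/-- `t` is transcendental -/
lemma trans_tt : Transcendental F (tt F) := by
  rw [transcendental_iff]
  intro p hp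
  have h0 : (aeval (tt F) : F[X] →ₐ[F] LaurentSeries F).toRingHom =
      (HahnSeries.ofPowerSeries ℤ F).comp (Polynomial.coeToPowerSeries.ringHom (R := F)) := by
    refine Polynomial.ringHom_ext (fun a => ?_) ?_
    · simp only [AlgHom.toRingHom_eq_coe, RingHom.coe_coe, aeval_C, RingHom.coe_comp,
        Function.comp_apply, Polynomial.coeToPowerSeries.ringHom_apply, Polynomial.coe_C]
      rfl
    · simp only [AlgHom.toRingHom_eq_coe, RingHom.coe_coe, aeval_X, RingHom.coe_comp,
        Function.comp_apply, Polynomial.coeToPowerSeries.ringHom_apply, Polynomial.coe_X]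
      rfl
  have h1 : aeval (tt F) p = (HahnSeries.ofPowerSeries ℤ F) (p : PowerSeries F) :=
    congrArg (fun f => f p) h0
  rw [h1] at hp
  have h2 : (HahnSeries.ofPowerSeries ℤ F) (p : PowerSeries F) =
      (HahnSeries.ofPowerSeries ℤ F) 0 := by rw [(HahnSeries.ofPowerSeries ℤ F).map_zero]; exact hp
  have h3 : (p : PowerSeries F) = 0 := HahnSeries.ofPowerSeries_injective h2
  exact Polynomial.coe_eq_zero_iff.1 h3

lemma trans_inv : Transcendental F (tt F)⁻¹ := by
  intro h
  have h1 := h.inv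
  rw [inv_inv] at h1
  exact trans_tt h1

/-- the embedding of the field of fractions which sends `X` to a transcendental element -/
lemma embed {L : Type u} [Field L] [Algebra F L] {x : L} (hx : Transcendental F x) :
    ∃ j : FractionRing F[X] →+* L, (∀ a, j (algebraMap F (FractionRing F[X]) a) = algebraMap F L a) ∧
      j (algebraMap F[X] (FractionRing F[X]) X) = x := by
  have hinj : Function.Injective (aeval x : F[X] →ₐ[F] L).toRingHom :=
    transcendental_iff_injective.1 hx
  refine ⟨IsFractionRing.lift hinj, fun a => ?_, ?_⟩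
  · rw [IsScalarTower.algebraMap_apply F F[X] (FractionRing F[X]), IsFractionRing.lift_algebraMap]
    simp
  · rw [IsFractionRing.lift_algebraMap]
    simp

lemma half (S : Matrix (Fin k) (Fin k) F) (l : Fin k → F)
    (h : ∃ μ : Fin k → LaurentSeries F, pen (tt F) S *ᵥ μ = fun i => algebraMap F _ (l i)) :
    ∃ μ : Fin k → LaurentSeries F, μ ᵥ* pen (tt F) S = fun i => algebraMap F _ (l i) := by
  obtain ⟨j, hj1, hj2⟩ := embed (trans_tt (F := F))
  obtain ⟨j', hj1', hj2'⟩ := embed (trans_inv (F := F))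
  rw [← hj2] at h
  obtain ⟨ν, hν⟩ := ascend j' hj1' _ S l (descend j hj1 _ S l h)
  rw [hj2'] at hν
  refine ⟨(tt F)⁻¹ • ν, ?_⟩
  have ht := tt_ne' (F := F)
  rw [← mulVec_transpose, pen_transpose, mulVec_smul, ← hν, ← smul_mulVec]
  congr 1
  funext a b
  simp only [Matrix.smul_apply, pen, smul_eq_mul, transpose_apply]
  field_simp
  ring

/-- piece (R2) -/
theorem stSym : StSym.{u} := by
  intro F _ k S l
  constructor
  · exact half S l
  · intro h
    have h1 : ∃ μ : Fin k → LaurentSeries F, pen (tt F) Sᵀ *ᵥ μ = fun i => algebraMap F _ (l i) := by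
      obtain ⟨μ, hμ⟩ := h
      exact ⟨μ, by rw [← pen_transpose, mulVec_transpose, hμ]⟩
    obtain ⟨μ, hμ⟩ := half Sᵀ l h1
    refine ⟨μ, ?_⟩
    rw [← hμ, ← pen_transpose, vecMul_transpose]

end Pool.Agent.T9h65.Sing
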